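import Pool.Agent.H.MP_3d2409_an.C

set_option autoImplicit false

open MeasureTheory Matrix AddCircle
open scoped ComplexConjugate

namespace Pool.Agent.Results.MP_3d2409_an.No

abbrev Circ := AddCircle (1 : ℝ)

noncomputable abbrev mu : Measure Circ := haarAddCircle

def hardy : Set (Lp ℂ 2 mu) := {f | ∀ k : ℤ, k < 0 → fourierCoeff f k = 0}

def IsInner (Θ : Lp ℂ 2 mu) : Prop :=
  Θ ∈ hardy ∧ (∀ᵐ t ∂mu, ‖Θ t‖ = 1) ∧ ∀ c : ℂ, ¬∀ᵐ t ∂mu, Θ t = c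

def model (Θ : Lp ℂ 2 mu) : Set (Lp ℂ 2 mu) :=
  {f | f ∈ hardy ∧ ∀ g ∈ hardy, ∫ t, Θ t * g t * conj (f t) ∂mu = 0}

def UETTO {ι : Type} (M : Matrix ι ι ℂ) : Prop :=
  ∃ (Θ φ : Lp ℂ 2 mu) (e : ι → Lp ℂ 2 mu), IsInner Θ ∧ Orthonormal ℂ e ∧
    (Submodule.span ℂ (Set.range e) : Set (Lp ℂ 2 mu)) = model Θ ∧
    ∀ i j, M i j = ∫ t, φ t * e j t * conj (e i t) ∂mu

theorem result : ∃ M : Matrix (Fin 6) (Fin 6) ℂ, UETTO M ∧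
    ¬UETTO (fromBlocks M 0 0 0 : Matrix (Fin 6 ⊕ Unit) (Fin 6 ⊕ Unit) ℂ) :=
  Pool.Agent.H.MP_3d2409_an.main

end Pool.Agent.Results.MP_3d2409_an.No
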